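import Pool.Agent.W543.GE.Stm

/-!
Project GE (helper543), part GOODPT.
-/

set_option autoImplicit false

open scoped TensorProduct Kronecker Polynomial

universe u

namespace Pool.Agent.W723.GE

open Pool.Agent.W543.GE

section

variable {K : Type u} [Field K] {n : ℕ}

theorem ev_map {R R' : Type u} [CommRing R] [CommRing R'] [Algebra K R] [Algebra K R'] {N : ℕ}
    (g : R →ₐ[K] R') (X : Fin n → Matrix (Fin N) (Fin N) R) (a : A K n) :
    (ev X a).map g = ev (fun i => (X i).map g) a := by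
  have h : (g.mapMatrix (m := Fin N)).comp (ev X) = ev (fun i => (X i).map g) := by
    apply FreeAlgebra.hom_ext
    funext i
    simp only [Function.comp_apply, AlgHom.comp_apply, FreeAlgebra.lift_ι_apply]
    rfl
  have h2 := DFunLike.congr_fun h a
  rw [← h2]
  rfl

theorem kap_map {R R' : Type u} [CommRing R] [CommRing R'] [Algebra K R] [Algebra K R'] {N N' : ℕ}
    (g : R →ₐ[K] R') (X : Fin n → Matrix (Fin N) (Fin N) R)
    (Y : Fin n → Matrix (Fin N') (Fin N') R) (z : A K n ⊗[K] A K n) :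
    (kap X Y z).map g = kap (fun i => (X i).map g) (fun i => (Y i).map g) z := by
  induction z using TensorProduct.induction_on with
  | zero =>
    rw [map_zero, map_zero]
    exact Matrix.map_zero _ (map_zero g)
  | tmul a b =>
    rw [kap_tmul, kap_tmul, ← ev_map, ← ev_map]
    ext p q
    simp [Matrix.kroneckerMap_apply]
  | add a b ha hb =>
    rw [map_add, map_add, ← ha, ← hb]
    exact Matrix.map_add _ (map_add g) _ _

theorem big_map {R R' : Type u} [CommRing R] [CommRing R'] [Algebra K R] [Algebra K R'] {N N' : ℕ}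
    (g : R →ₐ[K] R') (X : Fin n → Matrix (Fin N) (Fin N) R)
    (Y : Fin n → Matrix (Fin N') (Fin N') R) (J : Matrix (Fin n) (Fin n) (A K n ⊗[K] A K n)) :
    g (big X Y J).det = (big (fun i => (X i).map g) (fun i => (Y i).map g) J).det := by
  rw [AlgHom.map_det]
  congr 1
  ext p q
  rw [AlgHom.mapMatrix_apply, Matrix.map_apply]
  unfold big
  rw [← kap_map]
  rfl

theorem det_congr {S : Type u} [CommRing S] {ι : Type} [Fintype ι] [DecidableEq ι]
    (r : S) (M M' : Matrix ι ι S) (h : ∀ p q, r ∣ M p q - M' p q) : r ∣ M.det - M'.det := by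
  rw [← Ideal.mem_span_singleton, ← Ideal.Quotient.eq_zero_iff_mem, map_sub, sub_eq_zero,
    RingHom.map_det, RingHom.map_det]
  congr 1
  ext p q
  rw [RingHom.mapMatrix_apply, RingHom.mapMatrix_apply, Matrix.map_apply, Matrix.map_apply,
    ← sub_eq_zero, ← map_sub, Ideal.Quotient.eq_zero_iff_mem, Ideal.mem_span_singleton]
  exact h p q

end

theorem t_GOODPT (h1 : UNITJ_stmt.{u}) (h2 : ORD_stmt.{u}) : GOODPT_stmt.{u} := by
  intro K _ n φ hφ F _ _ N N' X Y v hv
  obtain ⟨Xs, hXs⟩ : ∃ Xs : Fin n → Matrix (Fin N) (Fin N) F[X],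
    Xs = fun j => (Polynomial.X : F[X]) • (X j).map Polynomial.C := ⟨_, rfl⟩
  obtain ⟨Ys, hYs⟩ : ∃ Ys : Fin n → Matrix (Fin N') (Fin N') F[X],
    Ys = fun j => (Polynomial.X : F[X]) • (Y j).map Polynomial.C := ⟨_, rfl⟩
  obtain ⟨c, hc⟩ : ∃ c : F[X], c = (big Xs Ys (jac φ)).det := ⟨_, rfl⟩
  obtain ⟨θ, hθ⟩ := hφ (c.natDegree + 2) (by omega)
  have hdiv : (Polynomial.X : F[X]) ^ (c.natDegree + 1) ∣
      (big Xs Ys (jac φ)).det - (big Xs Ys (jac θ.toAlgHom)).det := by
    refine det_congr _ _ _ fun p q => ?_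
    have h3 := h2 K n (c.natDegree + 2) (φ (x p.1) - θ (x p.1)) (hθ p.1) F N N' X Y q.1 p.2 q.2
    rw [← hXs, ← hYs] at h3
    have h4 : kap Xs Ys (dd (φ (x p.1) - θ (x p.1)) q.1) p.2 q.2 =
        big Xs Ys (jac φ) p q - big Xs Ys (jac θ.toAlgHom) p q := by
      rw [map_sub, Pi.sub_apply, map_sub, Matrix.sub_apply]
      rfl
    rw [h4] at h3
    exact h3
  rw [← hc] at hdiv
  obtain ⟨u, hu, hu2⟩ := Polynomial.isUnit_iff.1 (h1 K n θ F[X] N N' Xs Ys)
  rw [← hu2] at hdiv
  have hcu : c - Polynomial.C u = 0 := by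
    refine Polynomial.eq_zero_of_dvd_of_natDegree_lt hdiv ?_
    rw [Polynomial.natDegree_sub_C, Polynomial.natDegree_X_pow]
    exact Nat.lt_succ_self _
  rw [sub_eq_zero] at hcu
  obtain ⟨g, hg⟩ : ∃ g : F[X] →ₐ[K] F, ∀ f, g f = Polynomial.eval 1 f :=
    ⟨(Polynomial.aeval (1 : F)).restrictScalars K, fun f => by
      simp [Polynomial.aeval_def, Polynomial.eval₂_eq_eval_map]⟩
  have hdet : (big X Y (jac φ)).det = u := by
    have h3 := big_map g Xs Ys (jac φ)
    rw [← hc, hcu, hg, Polynomial.eval_C] at h3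
    have h4 : (fun i => (Xs i).map g) = X := by
      funext i
      ext p q
      rw [Matrix.map_apply, hXs, hg]
      simp
    have h5 : (fun i => (Ys i).map g) = Y := by
      funext i
      ext p q
      rw [Matrix.map_apply, hYs, hg]
      simp
    rw [h4, h5] at h3
    exact h3.symm
  have hne : (big X Y (jac φ)).det ≠ 0 := by
    rw [hdet]
    exact hu.ne_zero
  obtain ⟨v', hv'⟩ : ∃ v' : Fin n × Fin N × Fin N' → F, v' = fun p => v p.1 p.2 := ⟨_, rfl⟩
  have hz : v' = 0 := by
    refine Matrix.eq_zero_of_mulVec_eq_zero hne ?_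
    funext p
    have h3 := congrFun (hv p.1) p.2
    rw [Finset.sum_apply] at h3
    rw [Matrix.mulVec, dotProduct, Fintype.sum_prod_type, hv']
    exact h3
  funext i
  funext p
  have := congrFun hz (i, p)
  rw [hv'] at this
  exact this

end Pool.Agent.W723.GE
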